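import Pool.Agent.TH842.A3.Uni

/-!
Lower bound `c (log N)^3 / (log log N)^5`, for ALL real algebraic irrational numbers and ALL
integer bases, for the number of failures of a nontrivial integer linear relation between
consecutive digits, for the usual digits and for all other expansions with bounded integer digits.
Examples: the number of digit changes, and the number of nonzero digits of expansions with signed
digits.

Proof (in `Pool.Agent.TH842.A3`).  Let `f` be the minimal polynomial of `x` (after scaling a monic
integral polynomial of degree `d`), let `U k` be integers with `U k = b^k x + O(1)` and let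
`V(z)` be the polynomial with coefficients `U k - b U (k-1)`, `k ≤ N`; suppose that only `m` of them
are nonzero.  For a prime `q` such that `f` has no root modulo `q` (there are `≫ Q / log Q` of them
up to `Q`), the function `s(R)`, the `R`-th coefficient of `V(z) / (1 - b z)` modulo `q`, divided
by `b^R`, changes only at the places of `V`, satisfies `s(R / q^(d!)) = s(R)` outside of a small
exceptional set (Frobenius), and satisfies `f(s) = 0` in a ring of functions with a convolution
product, outside of a small set.  So the places where `s` changes lie on chains with ratio
`q^(d!)`.  If there were less than about `K / log^2` such chains, then a pigeonhole argument finds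
`d + 1` scales, separated from each other, such that no integral combination with bounded
coefficients of the chain starts comes near the ratio of two of them; the Taylor
expansion of `f` at these scales then yields a constant root of `f` modulo `q`, a contradiction.
Chains of different primes have few places in common.
-/

set_option autoImplicit false

namespace Pool.Agent.Results.MP_f2f914_nt.AllAlgebraicExponentThree

open Finset

/-- Let `x` be a real algebraic irrational number, `b ≥ 2` and `x = ∑ g_k b^{-k}` with bounded
integers `g_k` (for instance the usual base `b` digits, or signed digits). Every relation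
`q_0 g_k + … + q_m g_{k+m} = e` with fixed integer coefficients, not all `q_j` zero, between
consecutive digits `g_k` fails at least `c (log N)^3 / (log log N)^5` times up to `N`. -/
theorem result (x : ℝ) (halg : IsAlgebraic ℚ x) (hirr : Irrational x) (b : ℕ) (hb : 2 ≤ b)
    (g : ℕ → ℤ) (G : ℤ) (hg : ∀ k, |g k| ≤ G)
    (hsum : HasSum (fun k : ℕ => (g k : ℝ) / (b : ℝ) ^ k) x)
    (m : ℕ) (q : ℕ → ℤ) (hq : ∃ j, j ≤ m ∧ q j ≠ 0) (e : ℤ) :
    ∃ c : ℝ, 0 < c ∧ ∃ N0 : ℕ, ∀ N : ℕ, N0 ≤ N →
      c * (Real.log N) ^ 3 / (Real.log (Real.log N)) ^ 5 ≤
        (((Icc 1 N).filter (fun k : ℕ =>
          ∑ j ∈ range (m + 1), q j * g (k + j) ≠ e)).card : ℝ) :=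
  Pool.Agent.TH842.A3.Uni.relations_one x halg hirr b hb g G hg hsum m q hq e

end Pool.Agent.Results.MP_f2f914_nt.AllAlgebraicExponentThree
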