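import Pool.Agent.TH805.DR.Rat
import Pool.Agent.TH805.DR.Rel2

/-!
# The distance of the digits of algebraic numbers from eventually periodic sequences

No hypothesis is assumed.  Bailey, Borwein, Crandall and Pomerance proved that at least `c N^(1/D)`
of the first `N` binary digits of a real algebraic number of degree `D` are nonzero.  We compare the
digits of algebraic numbers with all eventually periodic sequences, that is with the digits of all
rational numbers.  In particular: for every irrational real algebraic integer of degree `D`, every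
base `b` and every rational number, the base `b` digits of the two numbers differ in at least
`c N^(1/D)` of the first `N` places; so for every digit `d` in `{0, …, b - 1}` at least `c N^(1/D)`
of the first `N` digits are different from `d`.

The bounds are explicit and linear in the preperiod, the period and the logarithms of the heights:
`N ≤ K (J + L + m + s) (Δ + 1)^D` for the number `Δ` of failures, in the first `N` places, of a linear
relation of order `J` with integer coefficients at most `b^L` between the digits of any number of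
algebraic integers of a real number field of degree `D`, with a right side of period `s` after the
place `m`.  So relations of order, period and height growing with `N` are included.

Method: the difference `y` of the numbers is a root of a polynomial over `ℤ` all of whose
coefficients but the constant one are divisible by `v`, the denominator of the rational number.  So
the integers which are the tails of `b^n R(y) = 0` are not zero, although they are tails of sums over
few places.  For rational numbers with denominators dividing a power of `b` we use a starting file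
(helper820, digit sums).
-/

set_option autoImplicit false

open Finset Polynomial

namespace Pool.Agent.Results.MP_f2f914_nt.DistanceFromRationals

/-- the `k`-th digit of `x` after the point in base `b` -/
noncomputable def digit (b : ℕ) (x : ℝ) (k : ℕ) : ℤ := ⌊x * (b : ℝ) ^ k⌋ % (b : ℤ)

/-- `x` is congruent to `∑_{k ≥ 1} g k b^(-k)` modulo `1` -/
def Expands (b : ℕ) (g : ℕ → ℤ) (x : ℝ) : Prop :=
  ∃ z : ℤ, HasSum (fun k : ℕ => (g (k + 1) : ℝ) / (b : ℝ) ^ (k + 1)) (x - z)

/-- the number of the places `k` with `1 ≤ k ≤ N` and `g k ≠ h k` -/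
def dist (g h : ℕ → ℤ) (N : ℕ) : ℕ := ((Icc 1 N).filter fun k => g k ≠ h k).card

/-- (1) Let `ξ` be a real root of `P ∈ ℤ[X]` of degree `D ≥ 1` with leading coefficient `a`, the sum of
the absolute values of the coefficients of `P` being at most `b^L`, `b ≥ 2`.  Let `v ≥ 1` be prime to
`b` and to `u` and not a divisor of `a`.  For all expansions of `ξ` and of `u / (v b^m)` in base `b`,
modulo `1`, with integer digits bounded by `b^L`, and for all `N`, the number `Δ` of the first `N`
places at which they differ satisfies `N ≤ 20 (D + 1) (m + ⌈log_b v⌉ + L + 1) (Δ + 1)^D`.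

(2) Let `x_1, …, x_r` be real algebraic integers, `D` the degree of the number field they generate
and `b ≥ 2`.  There is `K` such that, for all `J`, `L`, `m`, `s ≥ 1`, all integers `q_{l,j}` (`l ≤ r`,
`j < J`) of absolute value at most `b^L`, every sequence `e` of integers bounded by `b^L` and with
period `s` after the place `m` for which `b^s - 1` does not divide `∑_{i < s} e_{m+1+i} b^(s-1-i)`, and
for every `N`, the number `Δ` of the places `k ≤ N` at which `∑ q_{l,j} digit_{k+j}(x_l) ≠ e_k` satisfies
`N ≤ K (J + L + m + s) (Δ + 1)^D`.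

(3) Let `ξ` be an irrational real root of `P ∈ ℤ[X]` of degree `D ≥ 2` with leading coefficient `a`,
and `b ≥ 2`.  Let `η` be a rational number whose denominator divides a power of `b`, or else does not
divide any of the numbers `a b^s` (if `a = 1` this means any rational number).  There is `c > 0` such
that the base `b` digits of `ξ` and `η` differ in at least `(c N)^(1/D)` of the first `N` places, for
all large `N`. -/
theorem result :
    (∀ (P : ℤ[X]), P.natDegree ≠ 0 → ∀ ξ : ℝ, aeval ξ P = 0 → ∀ b : ℕ, 2 ≤ b → ∀ L : ℕ,
      ∑ i ∈ range (P.natDegree + 1), (P.coeff i).natAbs ≤ b ^ L →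
      ∀ (m v : ℕ) (u : ℤ), 1 ≤ v → IsCoprime (v : ℤ) b → IsCoprime (v : ℤ) u →
        ¬ (v : ℤ) ∣ P.leadingCoeff →
      ∀ g h : ℕ → ℤ, (∀ k, |g k| ≤ (b : ℤ) ^ L) → (∀ k, |h k| ≤ (b : ℤ) ^ L) →
        Expands b g ξ → Expands b h (u / (v * b ^ m)) →
      ∀ N : ℕ, N ≤ 20 * (P.natDegree + 1) * (m + Nat.clog b v + L + 1) *
        (dist g h N + 1) ^ P.natDegree) ∧
    (∀ b : ℕ, 2 ≤ b → ∀ (r : ℕ) (x : Fin r → ℝ), (∀ l, IsIntegral ℤ (x l)) → ∃ K : ℕ,
      ∀ (J L m s : ℕ) (q : Fin r → Fin J → ℤ) (e : ℕ → ℤ), 1 ≤ s →
        (∀ l j, |q l j| ≤ (b : ℤ) ^ L) → (∀ k, |e k| ≤ (b : ℤ) ^ L) →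
        (∀ k, m < k → e (k + s) = e k) →
        ¬ ((b : ℤ) ^ s - 1) ∣ ∑ i ∈ range s, e (m + 1 + i) * (b : ℤ) ^ (s - 1 - i) →
      ∀ N : ℕ, N ≤ K * (J + L + m + s) *
        (dist (fun k => ∑ l, ∑ j, q l j * digit b (x l) (k + j)) e N + 1) ^
          Module.finrank ℚ (IntermediateField.adjoin ℚ (Set.range x))) ∧
    (∀ (P : ℤ[X]), 2 ≤ P.natDegree → ∀ ξ : ℝ, Irrational ξ → aeval ξ P = 0 →
      ∀ b : ℕ, 2 ≤ b → ∀ η : ℚ, ((∃ s : ℕ, η.den ∣ b ^ s) ∨
        ∀ s : ℕ, ¬ (η.den : ℤ) ∣ P.leadingCoeff * (b : ℤ) ^ s) →
      ∃ c : ℝ, 0 < c ∧ ∃ N₀ : ℕ, ∀ N : ℕ, N₀ ≤ N →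
        c * N ≤ (dist (digit b ξ) (digit b (η : ℝ)) N : ℝ) ^ P.natDegree) := by
  refine ⟨?_, ?_, ?_⟩
  · intro P hD ξ hξ b hb L hL m v u hv hvb hvu hlead g h hg hh hgx hhx N
    exact Pool.Agent.TH805.DR.uone P hD ξ hξ b hb L hL m v u hv hvb hvu hlead g h hg hh hgx hhx N
  · intro b hb r x hx
    exact Pool.Agent.TH805.DR.urel b hb r x hx
  · intro P hD ξ hirr hξ b hb η hη
    exact Pool.Agent.TH805.DR.main_two P hD ξ hirr hξ b hb η hη

end Pool.Agent.Results.MP_f2f914_nt.DistanceFromRationals
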