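import Pool.Agent.TH629.ErrGap
import Pool.Agent.W472.AC.RothThm

/-!
# The `k`-error linear complexity of the digits of algebraic numbers

The `k`-error linear complexity of the first `L` digits of a number is the least order of a linear
recurrence over `ℚ` which is satisfied by the digits after at most `k` of them have been changed.
For every irrational real algebraic number and all bases composed of given primes the product of
`k + 1` and twice the `k`-error linear complexity is at least `(1 - o(1)) L`, for all `k` at once.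
-/

set_option autoImplicit false

namespace Pool.Agent.Results.MP_f2f914_nt.ErrorComplexity

open Finset

/-- the `i`-th digit of `x` after the point in base `b` -/
noncomputable def digit (b : ℕ) (x : ℝ) (i : ℕ) : ℤ := ⌊x * (b : ℝ) ^ i⌋ % (b : ℤ)

/-- The terms `s_1, …, s_L` satisfy a linear recurrence of order `m` over `ℚ`:
`s_(i+m) = c_0 s_i + … + c_(m-1) s_(i+m-1)` for `1 ≤ i ≤ L - m`. -/
def Recurrence (s : ℕ → ℤ) (L m : ℕ) : Prop :=
  ∃ c : ℕ → ℚ, ∀ i : ℕ, 1 ≤ i → i + m ≤ L →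
    (s (i + m) : ℚ) = ∑ j ∈ range m, c j * (s (i + j) : ℚ)

/-- the `k`-error linear complexity of the first `L` digits of `x` in base `b`: the least order of
a recurrence satisfied by the first `L` terms of a sequence of integers between `-b` and `b` which
differs from the sequence of digits in at most `k` of the places `1, …, L` -/
noncomputable def errorComplexity (b : ℕ) (x : ℝ) (k L : ℕ) : ℕ :=
  sInf {m | ∃ s : ℕ → ℤ, (∀ i, |s i| ≤ b) ∧
    ((Icc 1 L).filter fun i => s i ≠ digit b x i).card ≤ k ∧ Recurrence s L m}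

lemma dig_abs (b : ℕ) (hb : 2 ≤ b) (x : ℝ) (i : ℕ) : |digit b x i| ≤ b := by
  unfold digit
  have hb0 : (0 : ℤ) < b := by exact_mod_cast (by omega : 0 < b)
  rw [abs_of_nonneg (Int.emod_nonneg _ hb0.ne')]
  exact (Int.emod_lt_of_pos _ hb0).le

/-- the infimum is attained -/
lemma attained (b : ℕ) (hb : 2 ≤ b) (x : ℝ) (k L : ℕ) :
    ∃ s : ℕ → ℤ, (∀ i, |s i| ≤ b) ∧ ((Icc 1 L).filter fun i => s i ≠ digit b x i).card ≤ k ∧
      Recurrence s L (errorComplexity b x k L) := by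
  refine Nat.sInf_mem (s := {m | ∃ s : ℕ → ℤ, (∀ i, |s i| ≤ b) ∧
    ((Icc 1 L).filter fun i => s i ≠ digit b x i).card ≤ k ∧ Recurrence s L m}) ?_
  exact ⟨L, digit b x, dig_abs b hb x, by simp, fun _ => 0, fun i h1 h2 => by omega⟩

/-- the first part -/
theorem ridout_part (α : ℝ) (hα : IsAlgebraic ℚ α) (hirr : Irrational α) (S : Finset ℕ)
    (hS : ∀ p ∈ S, p.Prime) (δ : ℝ) (hδ : 0 < δ) :
    ∃ C : ℝ, 0 ≤ C ∧ ∀ b : ℕ, 2 ≤ b → (∀ p : ℕ, p.Prime → p ∣ b → p ∈ S) → ∀ k L : ℕ,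
      (L : ℝ) ≤ (k + 1) * (2 * errorComplexity b α k L + δ * L + C) := by
  obtain ⟨C, hC0, hC⟩ := Pool.Agent.TH629.ErrC.main_alg α hα hirr S hS δ hδ
  refine ⟨C, hC0, fun b hb hbS k L => ?_⟩
  obtain ⟨s, hs, hE, hrec⟩ := attained b hb α k L
  exact hC b hb hbS L _ k s hs hE hrec

/-- an inequality with a small multiple of `L` -/
lemma absorb (A ε : ℝ) (hA : 0 < A) (hε : 0 < ε) (C : ℝ) :
    ∃ L₀ : ℕ, ∀ L : ℕ, L₀ ≤ L → ∀ E : ℝ, (L : ℝ) ≤ A * (E + ε / 2 * L + C) →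
      (1 / A - ε) * L ≤ E := by
  refine ⟨⌈2 * C / ε⌉₊, fun L hL E h => ?_⟩
  have h1 : 2 * C / ε ≤ L := (Nat.le_ceil _).trans (by exact_mod_cast hL)
  rw [div_le_iff₀ hε] at h1
  have h2 : (L : ℝ) / A ≤ E + ε / 2 * L + C := by
    rw [div_le_iff₀ hA]
    linarith
  have h3 : 1 / A * L = (L : ℝ) / A := by ring
  rw [sub_mul, h3]
  linarith

/-- the exponents of Roth's theorem -/
lemma exponent (k : ℕ) (ε : ℝ) (hε : 0 < ε) : ∃ η : ℝ, 0 < η ∧ η ≤ 1 ∧
    ((2 + η) ^ (k + 2) - (2 + η)) / (2 + η - 1) ≤ (2 ^ (k + 2) - 2) * (1 + ε) := by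
  have hc : ContinuousAt (fun η : ℝ => ((2 + η) ^ (k + 2) - (2 + η)) / (2 + η - 1)) 0 := by
    apply ContinuousAt.div
    · fun_prop
    · fun_prop
    · norm_num
  have h2 : (2 : ℝ) < 2 ^ (k + 2) := by
    calc (2 : ℝ) = 2 ^ 1 := (pow_one _).symm
      _ < 2 ^ (k + 2) := pow_lt_pow_right₀ (by norm_num) (by omega)
  have h0 : ((2 + (0 : ℝ)) ^ (k + 2) - (2 + 0)) / (2 + 0 - 1) < (2 ^ (k + 2) - 2) * (1 + ε) := by
    have e : ((2 + (0 : ℝ)) ^ (k + 2) - (2 + 0)) / (2 + 0 - 1) = 2 ^ (k + 2) - 2 := by norm_num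
    rw [e]
    nlinarith
  have h3 := hc.eventually_lt continuousAt_const h0
  obtain ⟨r, hr, hball⟩ := Metric.eventually_nhds_iff.1 h3
  refine ⟨min 1 (r / 2), lt_min one_pos (by positivity), min_le_left _ _, ?_⟩
  apply le_of_lt
  apply hball
  rw [Real.dist_eq, sub_zero, abs_of_pos (lt_min one_pos (by positivity))]
  exact lt_of_le_of_lt (min_le_right _ _) (by linarith)

/-- the third part -/
theorem roth_part (α : ℝ) (hα : IsAlgebraic ℚ α) (hirr : Irrational α) (k : ℕ) (ε : ℝ)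
    (hε : 0 < ε) : ∃ L₀ : ℕ, ∀ L : ℕ, L₀ ≤ L → ∀ b : ℕ, 2 ≤ b →
      (1 / (2 ^ (k + 2) - 2) - ε) * L ≤ errorComplexity b α k L := by
  have hA : (2 : ℝ) < 2 ^ (k + 2) := by
    calc (2 : ℝ) = 2 ^ 1 := (pow_one _).symm
      _ < 2 ^ (k + 2) := pow_lt_pow_right₀ (by norm_num) (by omega)
  obtain ⟨A, hAd⟩ : ∃ A : ℝ, A = 2 ^ (k + 2) - 2 := ⟨_, rfl⟩
  have hA0 : 0 < A := by rw [hAd]; linarith
  rw [← hAd]
  obtain ⟨η, hη0, hη1, hη⟩ := exponent k (ε / 8) (by positivity)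
  rw [← hAd] at hη
  obtain ⟨c, hc, hR⟩ := Pool.Agent.W472.AC.roth α hα hirr η hη0
  obtain ⟨C, hC0, hC⟩ := Pool.Agent.W47.JL.single α (2 + η) c 0 (by linarith) hc le_rfl
    (fun q hq p => by
      rw [Real.rpow_zero, mul_one, show (2 : ℝ) + η - 1 = 1 + η by ring]
      exact hR q hq p)
  obtain ⟨C1, hC1, herr⟩ := Pool.Agent.TH629.ErrC.err_small (ε / (8 * C * (1 + ε / 8)))
    (by positivity)
  obtain ⟨L₀, hL₀⟩ := absorb A ε hA0 hε ((1 + ε / 8) * (C * C1))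
  refine ⟨L₀, fun L hL b hb => hL₀ L hL _ ?_⟩
  obtain ⟨s, hs, hE, hrec⟩ := attained b hb α k L
  obtain ⟨m, hm⟩ : ∃ m : ℕ, m = errorComplexity b α k L := ⟨_, rfl⟩
  rw [← hm] at hrec ⊢
  have hmL : m ≤ L := by
    rw [hm]
    exact Nat.sInf_le ⟨digit b α, dig_abs b hb α, by simp, fun _ => 0, fun i h1 h2 => by omega⟩
  have hmL' : (m : ℝ) ≤ L := by exact_mod_cast hmL
  have hm0 : (0 : ℝ) ≤ m := Nat.cast_nonneg m
  have hL0 : (0 : ℝ) ≤ L := Nat.cast_nonneg L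
  have h := hC b hb L m k s hs hE hrec
  have he : Real.sqrt (((m : ℝ) + 1) * Real.log ((m : ℝ) + 2)) = Pool.Agent.W47.JL.err m := rfl
  rw [he] at h
  have he0 := Pool.Agent.W47.JL.err_ge m
  have h1 : (L : ℝ) ≤ A * (1 + ε / 8) * (m + C * Pool.Agent.W47.JL.err m) :=
    h.trans (mul_le_mul_of_nonneg_right hη (by positivity))
  refine h1.trans ?_
  rw [mul_assoc]
  apply mul_le_mul_of_nonneg_left _ hA0.le
  have h2 : (1 + ε / 8) * (C * Pool.Agent.W47.JL.err m) ≤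
      (1 + ε / 8) * (C * (ε / (8 * C * (1 + ε / 8)) * m + C1)) := by
    apply mul_le_mul_of_nonneg_left _ (by positivity)
    exact mul_le_mul_of_nonneg_left (herr m) hC0.le
  have h3 : (1 + ε / 8) * (C * (ε / (8 * C * (1 + ε / 8)) * m + C1)) =
      ε / 8 * m + (1 + ε / 8) * (C * C1) := by
    field_simp
  rw [h3] at h2
  have h4 : ε / 8 * m ≤ ε / 8 * L := mul_le_mul_of_nonneg_left hmL' (by positivity)
  have h5 : 0 ≤ ε * L := by positivity
  rw [mul_add]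
  linarith

/-- Let `α` be an irrational real algebraic number.
(1) Let `S` be a finite set of primes.  For every `δ > 0` there is a constant `C` such that for all
bases `b ≥ 2` composed of primes of `S` (for instance `10` for `S = {2, 5}`) and all `k` and `L` the
`k`-error linear complexity `E` of the first `L` digits of `α` in base `b` satisfies
`L ≤ (k + 1) (2 E + δ L + C)`.
(2) In particular, for a fixed `k`, it is at least `(1 / (2 k + 2) - ε) L` for all large `L`, and if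
it is at most `θ L` then `k + 1 ≥ 1 / (2 θ + ε)` (`L` large, `ε > 0`).
(3) For every fixed `k` it is at least `(1 / (2 ^ (k + 2) - 2) - ε) L` for all large `L`, uniformly
in all bases `b ≥ 2`. -/
theorem result (α : ℝ) (hα : IsAlgebraic ℚ α) (hirr : Irrational α) :
    (∀ S : Finset ℕ, (∀ p ∈ S, p.Prime) →
      (∀ δ : ℝ, 0 < δ → ∃ C : ℝ, ∀ b : ℕ, 2 ≤ b → (∀ p : ℕ, p.Prime → p ∣ b → p ∈ S) →
        ∀ k L : ℕ, (L : ℝ) ≤ (k + 1) * (2 * errorComplexity b α k L + δ * L + C)) ∧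
      (∀ k : ℕ, ∀ ε : ℝ, 0 < ε → ∃ L₀ : ℕ, ∀ L : ℕ, L₀ ≤ L → ∀ b : ℕ, 2 ≤ b →
        (∀ p : ℕ, p.Prime → p ∣ b → p ∈ S) →
        (1 / (2 * k + 2) - ε) * L ≤ errorComplexity b α k L) ∧
      (∀ θ ε : ℝ, 0 ≤ θ → 0 < ε → ∃ L₀ : ℕ, ∀ L : ℕ, L₀ ≤ L → ∀ b : ℕ, 2 ≤ b →
        (∀ p : ℕ, p.Prime → p ∣ b → p ∈ S) → ∀ k : ℕ,
        (errorComplexity b α k L : ℝ) ≤ θ * L → 1 / (2 * θ + ε) ≤ (k : ℝ) + 1)) ∧
    (∀ k : ℕ, ∀ ε : ℝ, 0 < ε → ∃ L₀ : ℕ, ∀ L : ℕ, L₀ ≤ L → ∀ b : ℕ, 2 ≤ b →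
      (1 / (2 ^ (k + 2) - 2) - ε) * L ≤ errorComplexity b α k L) := by
  refine ⟨fun S hS => ⟨fun δ hδ => ?_, fun k ε hε => ?_, fun θ ε hθ hε => ?_⟩,
    fun k ε hε => roth_part α hα hirr k ε hε⟩
  · obtain ⟨C, -, h⟩ := ridout_part α hα hirr S hS δ hδ
    exact ⟨C, h⟩
  · obtain ⟨C, hC0, h⟩ := ridout_part α hα hirr S hS ε hε
    obtain ⟨L₀, hL₀⟩ := absorb (2 * k + 2) ε (by positivity) hε (C / 2)
    refine ⟨L₀, fun L hL b hb hbS => hL₀ L hL _ ?_⟩
    refine (h b hb hbS k L).trans (le_of_eq ?_)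
    ring
  · obtain ⟨C, hC0, h⟩ := ridout_part α hα hirr S hS (ε / 2) (by positivity)
    refine ⟨⌈2 * C / ε⌉₊ + 1, fun L hL b hb hbS k hE => ?_⟩
    have hL1 : (1 : ℝ) ≤ L := by exact_mod_cast (by omega : 1 ≤ L)
    have h1 : 2 * C / ε ≤ L := (Nat.le_ceil _).trans (by exact_mod_cast (by omega : _ ≤ L))
    rw [div_le_iff₀ hε] at h1
    have h2 := h b hb hbS k L
    have hk : (0 : ℝ) ≤ k := Nat.cast_nonneg k
    have h3 : (L : ℝ) ≤ (k + 1) * ((2 * θ + ε) * L) := by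
      refine h2.trans (mul_le_mul_of_nonneg_left ?_ (by linarith))
      nlinarith
    rw [div_le_iff₀ (by positivity)]
    have h4 : (1 : ℝ) * L ≤ ((k + 1) * (2 * θ + ε)) * L := by linarith
    exact le_of_mul_le_mul_right h4 (by linarith)

end Pool.Agent.Results.MP_f2f914_nt.ErrorComplexity
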