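import Pool.Agent.TH373.DR2.Puis

set_option autoImplicit false

/-!
# The digits of almost all values of algebraic functions: a Chernoff bound for all windows

Let `ρ > 0` be real and not an integer, `τ > 0`, let `h` be real analytic at `0` with `h 0 ≠ 0`,
`β` real and `p n` arbitrary integers.  We consider the numbers

  `x n = p n + β + n^ρ h(n^(-τ))`.

Examples (algebraic numbers): the roots `n^(1/m)`, more generally `P(n)^(1/m)` with `P` a
polynomial whose degree is not divisible by `m`, and the values of all algebraic functions of `n`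
whose Puiseux series at infinity has a leading exponent `ρ > 0` which is not an integer.

Random digits deviate in a window of length `L` by more than `√(λ L)` with a probability
`e^(-cλ)`.  We show that the digits of the numbers `x n`, `n ≤ X`, do the same in all windows
inside the first `A log X` digits at once: for every `λ ≥ 0`, for all but `C (log X)^2 X e^(-cλ)` of
the integers `n ≤ X`, in EVERY window of `L` digits, for all bases `b ≤ K` and all words of length
`k ≤ K`, the number of occurrences of the word is `L / b^k` up to an error `√(λ L)`.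
-/

namespace Pool.Agent.Results.MP_f2f914_nt.RootsUniformlyNormal

open Finset Pool.Agent.TH373.DR

/-- The `j`-th digit after the point of the real number `x` in base `b` (`j ≥ 1`), that is
`⌊x b^j⌋` modulo `b`. -/
noncomputable def digit (b : ℕ) (x : ℝ) (j : ℕ) : ℤ := ⌊x * (b : ℝ) ^ j⌋ % (b : ℤ)

/-- The number of occurrences of the word `w` of length `k` which begin inside the window of the
digits number `i + 1, …, i + L` of `x`. -/
noncomputable def occ (b k : ℕ) (w : Fin k → Fin b) (x : ℝ) (i L : ℕ) : ℕ :=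
  open Classical in
    ((range L).filter (fun j => ∀ s : Fin k, digit b x (i + j + s + 1) = ((w s : ℕ) : ℤ))).card

/-- For all bases `2 ≤ b ≤ K` and all lengths `1 ≤ k ≤ K`: in every window inside the first `N`
digits of `x` in base `b`, of length `L`, say, each word of length `k` occurs `L / b^k` times up to
an error `√(λ L)`. -/
def AllWindows (K : ℕ) (lam N x : ℝ) : Prop :=
  ∀ b k : ℕ, 2 ≤ b → b ≤ K → 1 ≤ k → k ≤ K →
    ∀ (w : Fin k → Fin b) (i L : ℕ), ((i + L : ℕ) : ℝ) ≤ N →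
      |(occ b k w x i L : ℝ) - L / (b : ℝ) ^ k| ≤ Real.sqrt (lam * L)

/-- **Theorem.** -/
theorem result (ρ : ℝ) (hρ0 : 0 < ρ) (hρ : ∀ m : ℕ, ρ ≠ m) (τ : ℝ) (hτ : 0 < τ)
    (h : ℝ → ℝ) (hh : AnalyticAt ℝ h 0) (h0 : h 0 ≠ 0) (β : ℝ) (p : ℕ → ℤ) (A : ℝ) (K : ℕ) :
    ∃ c : ℝ, 0 < c ∧ ∃ C : ℝ, ∃ X₀ : ℕ, ∀ X : ℕ, X₀ ≤ X → ∀ lam : ℝ, 0 ≤ lam →
      ∃ E : Finset ℕ, (E.card : ℝ) ≤ C * (Real.log X) ^ 2 * X * Real.exp (-(c * lam)) ∧
        ∀ n : ℕ, 1 ≤ n → n ≤ X → n ∉ E →
          AllWindows K lam (A * Real.log X) (p n + β + (n : ℝ) ^ ρ * h ((n : ℝ) ^ (-τ))) := by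
  classical
  set A' : ℝ := max A 1 with hA'
  have hA'0 : 0 < A' := lt_of_lt_of_le one_pos (le_max_right _ _)
  obtain ⟨s, hreg⟩ := reg_puiseux ρ τ hρ hτ h hh h0
  -- the defining inequality of the theorem on windows, with `g0 = 0`
  have hE : ∀ b : ℕ, ((max 2 ⌈ρ⌉₊ : ℕ) : ℝ) - 2 - ρ < 0 * Real.log b := by
    intro b
    rw [zero_mul]
    rcases le_total 2 ⌈ρ⌉₊ with h | h
    · rw [max_eq_right h]
      have := Nat.ceil_lt_add_one hρ0.le
      linarith
    · rw [max_eq_left h]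
      push_cast
      linarith
  set y : ℕ → ℝ := fun n => 1 * ((n : ℝ) ^ (ρ - (0 : ℕ)) * GG ρ τ h 0 ((n : ℝ) ^ (-τ))) + β with hy
  have ey : ∀ n : ℕ, y n = (n : ℝ) ^ ρ * h ((n : ℝ) ^ (-τ)) + β := by
    intro n
    simp [hy, GG]
  have key : Chern (fun X lam n => ∃ b < K + 1, ∃ k < K + 1, 2 ≤ b ∧ 1 ≤ k ∧
      ∃ (w : Fin k → Fin b) (i L : ℕ), 0 * Real.log X ≤ i ∧
      ((i + L : ℕ) : ℝ) ≤ A' * Real.log X ∧ Real.sqrt (lam * L) < dv b k w (y n) i L) := by
    apply Chern.exists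
    intro b _
    apply Chern.exists
    intro k _
    by_cases hb : 2 ≤ b
    · by_cases hk : 1 ≤ k
      · obtain ⟨c, hc, C, hC, X0, h⟩ := chern_windows hreg b k hb hk 1 β one_ne_zero 0 A'
          le_rfl hA'0 (hE b)
        exact ⟨c, hc, C, hC, X0, fun X hX lam hlam S hS => h X hX lam hlam S (fun n hn => by
          obtain ⟨h1, h2, _, _, h3⟩ := hS n hn
          exact ⟨h1, h2, h3⟩)⟩
      · exact Chern.of_false (fun X lam n h => hk h.2.1)
    · exact Chern.of_false (fun X lam n h => hb h.1)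
  obtain ⟨c, hc, C, hC, X0, hmain⟩ := key
  refine ⟨c, hc, C, max X0 1, fun X hX lam hlam => ?_⟩
  have hX0 := (le_max_left X0 1).trans hX
  have hX1 : 1 ≤ X := (le_max_right X0 1).trans hX
  have hlog : 0 ≤ Real.log X := Real.log_nonneg (by exact_mod_cast hX1)
  set E : Finset ℕ := (Icc 1 X).filter (fun n => ∃ b < K + 1, ∃ k < K + 1, 2 ≤ b ∧ 1 ≤ k ∧
      ∃ (w : Fin k → Fin b) (i L : ℕ), 0 * Real.log X ≤ i ∧
      ((i + L : ℕ) : ℝ) ≤ A' * Real.log X ∧ Real.sqrt (lam * L) < dv b k w (y n) i L) with hEdef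
  refine ⟨E, hmain X hX0 lam hlam E (fun n hn => ?_),
    fun n h1 h2 hnE b k hb hbK hk hkK w i L hL2 => ?_⟩
  · rw [hEdef, mem_filter, mem_Icc] at hn
    exact ⟨hn.1.1, hn.1.2, hn.2⟩
  · by_contra hcon
    push Not at hcon
    apply hnE
    rw [hEdef, mem_filter, mem_Icc]
    refine ⟨⟨h1, h2⟩, b, by omega, k, by omega, hb, hk, w, i, L, ?_, ?_, ?_⟩
    · rw [zero_mul]; positivity
    · exact hL2.trans (mul_le_mul_of_nonneg_right (le_max_left _ _) hlog)
    · have e2 : dv b k w (y n) i L = |(occ b k w (p n + β + (n : ℝ) ^ ρ * h ((n : ℝ) ^ (-τ))) i L : ℝ)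
          - L / (b : ℝ) ^ k| := by
        rw [← dv_add_int b k hb w (y n) (p n) i L, ey]
        have e3 : (n : ℝ) ^ ρ * h ((n : ℝ) ^ (-τ)) + β + (p n : ℝ) =
            p n + β + (n : ℝ) ^ ρ * h ((n : ℝ) ^ (-τ)) := by ring
        rw [e3]
        unfold dv oc occ digit
        rfl
      rw [e2]
      exact hcon

end Pool.Agent.Results.MP_f2f914_nt.RootsUniformlyNormal
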